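import Pool.Agent.Helper758_SB.Main
import Pool.Agent.Helper758_SB.FiniteTypes

/-!
# Knots whose superbridge index exceeds their bridge index by one, and Jin's question

For every `b ≥ 2` there are only finitely many knots with bridge index `b` and superbridge index at most
`b + 1`. Hence, for every `b`, all but finitely many connected sums `K = K₁ # K₂` with bridge index `b` and
`max (sb K₁) (sb K₂) ≤ b + 1` satisfy Jin's inequality `sb K > max (sb K₁) (sb K₂)`.
-/

namespace Pool.Agent.Results.MP_28369d_gt.FirstStratum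

open Knot548

/-- The closed polygon with vertex list `L`, as a subset of space. -/
def polygon (L : List R3) : Set R3 := {q | ∃ e ∈ cedges L, q ∈ segment ℝ e.1 e.2}

/-- Ambient isotopy: `A` is carried to `B` by a continuous family of homeomorphisms of `ℝ³` starting
with the identity. -/
def AmbientIsotopic (A B : Set R3) : Prop :=
  ∃ H : unitInterval → R3 ≃ₜ R3, Continuous (fun q : unitInterval × R3 => H q.1 q.2) ∧
    (∀ x, H 0 x = x) ∧ H 1 '' A = B

/-- `L` is a polygonal conformation of the knot type of `K`: a simple closed polygon (given by its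
vertices in cyclic order) that is ambient isotopic to `K`. -/
structure IsConformation (K : Set R3) (L : List R3) : Prop where
  three : 3 ≤ L.length
  simple : Simple L
  iso : AmbientIsotopic K (polygon L)

/-- A tame knot: a subset of `ℝ³` that is ambient isotopic to a simple closed polygon. -/
def IsTameKnot (K : Set R3) : Prop := ∃ L, IsConformation K L

/-- The direction `v` is not perpendicular to an edge of the polygon `L`. -/
def Generic (L : List R3) (v : R3) : Prop := ∀ e ∈ cedges L, v ⬝ᵥ e.1 ≠ v ⬝ᵥ e.2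

/-- The number of local maxima of the height function `x ↦ ⟨v, x⟩` restricted to the polygon `L`. -/
noncomputable def maxima (L : List R3) (v : R3) : ℕ :=
  {x | x ∈ polygon L ∧ IsLocalMaxOn (fun y => v ⬝ᵥ y) (polygon L) x}.ncard

/-- The bridge index: the least number of local maxima, over all polygonal conformations of `K` and all
generic directions. -/
noncomputable def bridgeIndex (K : Set R3) : ℕ :=
  sInf {n | ∃ L v, IsConformation K L ∧ Generic L v ∧ maxima L v = n}

/-- The largest number of local maxima of a polygon `L` in a generic direction. -/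
noncomputable def superbridgeNumber (L : List R3) : ℕ := sSup {n | ∃ v, Generic L v ∧ maxima L v = n}

/-- The superbridge index. -/
noncomputable def superbridgeIndex (K : Set R3) : ℕ :=
  sInf {n | ∃ L, IsConformation K L ∧ superbridgeNumber L = n}

/-- `K` is a connected sum of `K₁` and `K₂`: some polygonal conformation of `K` is cut by a plane
in two vertices `x`, `y` such that its two parts, closed up by the segment between `x` and `y`, are conformations of `K₁` and `K₂`
(with the induced orientations). -/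
def IsConnectedSum (K K₁ K₂ : Set R3) : Prop :=
  ∃ (x y v : R3) (c : ℝ) (A B : List R3), v ⬝ᵥ x = c ∧ v ⬝ᵥ y = c ∧ (∀ a ∈ A, c < v ⬝ᵥ a) ∧
    (∀ a ∈ B, v ⬝ᵥ a < c) ∧ IsConformation K (x :: A ++ y :: B) ∧ IsConformation K₁ (x :: A ++ [y]) ∧
    IsConformation K₂ (y :: B ++ [x])

/-! ### Polygons as periodic sequences -/

/-- the periodic sequence of vertices -/
def seq (L : List R3) (i : ℕ) : R3 := L.getD (i % L.length) 0

theorem seq_per {L : List R3} {m : ℕ} (h : L.length = m + 1) (i : ℕ) : seq L (i + (m + 1)) = seq L i := by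
  unfold seq
  rw [← h, Nat.add_mod_right]

theorem lst_seq {L : List R3} {m : ℕ} (h : L.length = m + 1) : SB758.lst m (seq L) = L := by
  unfold SB758.lst
  apply List.ext_getElem
  · rw [List.length_ofFn, h]
  · intro i h1 h2
    rw [List.getElem_ofFn]
    unfold seq
    simp only [Nat.mod_eq_of_lt h2, List.getD_eq_getElem _ _ h2]

theorem length_lst (m : ℕ) (P : ℕ → R3) : (SB758.lst m P).length = m + 1 := by
  unfold SB758.lst
  rw [List.length_ofFn]

theorem dot_eq (v x : R3) : v ⬝ᵥ x = SB758.dot v x := by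
  unfold SB758.dot dotProduct
  rw [Fin.sum_univ_three]

theorem conf_iff {K : Set R3} {m : ℕ} {P : ℕ → R3} (hm : 2 ≤ m) (hper : ∀ i, P (i + (m + 1)) = P i) :
    SB758.Conf K m P ↔ IsConformation K (SB758.lst m P) := by
  constructor
  · intro h
    exact ⟨by rw [length_lst]; omega, h.simple, h.iso⟩
  · intro h
    exact ⟨hper, h.simple, h.iso⟩

theorem generic_iff {m : ℕ} {P : ℕ → R3} (hper : ∀ i, P (i + (m + 1)) = P i) {v : R3} :
    Generic (SB758.lst m P) v ↔ ∀ i, SB758.dot v (P (i + 1)) ≠ SB758.dot v (P i) := by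
  have hp : Function.Periodic P (m + 1) := hper
  have key : ∀ k : Fin (m + 1), P ((k + 1 : Fin (m + 1)) : ℕ) = P ((k : ℕ) + 1) := by
    intro k
    rw [Fin.val_add, hp.map_mod_nat]
    rcases Nat.eq_zero_or_pos m with hm | hm
    · subst hm
      have h1 := hp.map_mod_nat ((k : ℕ) + 1)
      have h2 := hp.map_mod_nat ((k : ℕ) + ((1 : Fin (0 + 1)) : ℕ))
      rw [← h1, ← h2]
      congr 1
      omega
    · rw [Fin.val_one', Nat.mod_eq_of_lt (show 1 < m + 1 by omega)]
  unfold Generic SB758.lst
  rw [ofFn_cedges, List.forall_mem_ofFn_iff]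
  simp only [dot_eq]
  constructor
  · intro h i
    have h1 := h ⟨i % (m + 1), Nat.mod_lt _ (Nat.succ_pos _)⟩
    rw [key] at h1
    simp only at h1
    rw [hp.map_mod_nat, ← hp.map_mod_nat (i % (m + 1) + 1), Nat.mod_add_mod, hp.map_mod_nat] at h1
    exact h1.symm
  · intro h k
    have h1 := h k
    rw [key]
    exact h1.symm

theorem maxima_lst {m : ℕ} (hm : 2 ≤ m) {P : ℕ → R3} (hper : ∀ i, P (i + (m + 1)) = P i)
    (hs : Simple (SB758.lst m P)) {v : R3} (hv : Generic (SB758.lst m P) v) :
    maxima (SB758.lst m P) v = SB758.mx (m + 1) (fun i => SB758.dot v (P i)) := by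
  have h1 := (generic_iff hper).1 hv
  have h2 := SB758.maxima_eq hm hper hs (v := v) (fun i => by rw [dot_eq, dot_eq]; exact h1 i)
  unfold SB758.mx
  simp only [dot_eq] at h2
  convert h2 using 1
  unfold maxima SB758.maxima
  simp only [dot_eq]
  rfl

theorem mx_le (N : ℕ) (h : ℕ → ℝ) : SB758.mx N h ≤ N := by
  unfold SB758.mx
  refine (Finset.card_filter_le _ _).trans ?_
  rw [Finset.card_range]

theorem super_bdd {m : ℕ} (hm : 2 ≤ m) {P : ℕ → R3} (hper : ∀ i, P (i + (m + 1)) = P i)
    (hs : Simple (SB758.lst m P)) : BddAbove {n | ∃ v, Generic (SB758.lst m P) v ∧ maxima (SB758.lst m P) v = n} := by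
  refine ⟨m + 1, ?_⟩
  rintro n ⟨v, hv, rfl⟩
  rw [maxima_lst hm hper hs hv]
  exact mx_le _ _

theorem bd_of_super {m : ℕ} (hm : 2 ≤ m) {P : ℕ → R3} (hper : ∀ i, P (i + (m + 1)) = P i)
    (hs : Simple (SB758.lst m P)) {c : ℕ} (h : superbridgeNumber (SB758.lst m P) ≤ c) :
    SB758.Bd (m + 1) c P := by
  intro v hv
  have hg := (generic_iff hper).2 hv
  have h1 := maxima_lst hm hper hs hg
  rw [← h1]
  refine le_trans ?_ h
  exact le_csSup (super_bdd hm hper hs) ⟨v, hg, rfl⟩

theorem super_of_bd {m : ℕ} (hm : 2 ≤ m) {P : ℕ → R3} (hper : ∀ i, P (i + (m + 1)) = P i)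
    (hs : Simple (SB758.lst m P)) {c : ℕ} (h : SB758.Bd (m + 1) c P) :
    superbridgeNumber (SB758.lst m P) ≤ c := by
  unfold superbridgeNumber
  rcases Set.eq_empty_or_nonempty {n | ∃ v, Generic (SB758.lst m P) v ∧ maxima (SB758.lst m P) v = n} with he | hne
  · rw [he]
    simp
  · apply csSup_le hne
    rintro n ⟨v, hv, rfl⟩
    rw [maxima_lst hm hper hs hv]
    exact h v ((generic_iff hper).1 hv)

/-- For every `b ≥ 2` a tame knot with bridge index `b` and superbridge index at most `b + 1` has a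
polygonal conformation with a bounded number of vertices. -/
theorem bounded (b : ℕ) (hb : 2 ≤ b) : ∃ N₀ : ℕ, ∀ K : Set R3, IsTameKnot K → bridgeIndex K = b →
    superbridgeIndex K ≤ b + 1 → ∃ m P, 2 ≤ m ∧ m + 1 ≤ N₀ ∧ SB758.Conf K m P := by
  obtain ⟨N₀, hN₀⟩ := SB758.step b hb
  refine ⟨N₀ + 5, fun K hK hbK hsK => ?_⟩
  have hbr : ∀ m P, 2 ≤ m → SB758.Conf K m P → ∀ v : R3,
      (∀ i, SB758.dot v (P (i + 1)) ≠ SB758.dot v (P i)) →
      b ≤ SB758.mx (m + 1) (fun i => SB758.dot v (P i)) := by
    intro m P hm hP v hv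
    rw [← maxima_lst hm hP.per hP.simple ((generic_iff hP.per).2 hv), ← hbK]
    exact Nat.sInf_le ⟨_, v, (conf_iff hm hP.per).1 hP, (generic_iff hP.per).2 hv, rfl⟩
  have hne : {n | ∃ L, IsConformation K L ∧ superbridgeNumber L = n}.Nonempty := by
    obtain ⟨L, hL⟩ := hK
    exact ⟨_, L, hL, rfl⟩
  obtain ⟨L, hL, hLs⟩ := Nat.sInf_mem hne
  have hLs' : superbridgeNumber L ≤ b + 1 := by
    rw [hLs]
    exact hsK
  have hS : {n | ∃ P : ℕ → R3, 2 ≤ n ∧ SB758.Conf K n P ∧ SB758.Bd (n + 1) (b + 1) P}.Nonempty := by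
    obtain ⟨m, hm⟩ := Nat.exists_eq_add_of_le' (show 1 ≤ L.length by have := hL.three; omega)
    have hm2 : 2 ≤ m := by have := hL.three; omega
    have hl := lst_seq hm
    have hper := seq_per hm
    refine ⟨m, seq L, hm2, (conf_iff hm2 hper).2 (by rw [hl]; exact hL), ?_⟩
    exact bd_of_super hm2 hper (by rw [hl]; exact hL.simple) (by rw [hl]; exact hLs')
  obtain ⟨P, h2, hP, hbd⟩ := Nat.sInf_mem hS
  set n := sInf {n | ∃ P : ℕ → R3, 2 ≤ n ∧ SB758.Conf K n P ∧ SB758.Bd (n + 1) (b + 1) P} with hn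
  refine ⟨n, P, h2, ?_, hP⟩
  by_contra hcon
  obtain ⟨k, hk⟩ := Nat.exists_eq_add_of_le' (show 2 ≤ n from h2)
  rw [hk] at hP hbd
  obtain ⟨Q, hQ1, hQ2⟩ := hN₀ K hbr k P (by omega) hP hbd
  have h5 : n ≤ k + 1 := Nat.sInf_le ⟨Q, by omega, hQ1, hQ2⟩
  omega

/-- For every `b ≥ 2` there is a finite list `F` of polygons such that every tame knot `K` with bridge index `b`
that is not ambient isotopic to a member of `F` has superbridge index at least `b + 2`; in particular Jin's inequality
`sb K > max (sb K₁) (sb K₂)` holds whenever such a `K` is a connected sum of knots `K₁`, `K₂` with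
superbridge indices at most `b + 1`. -/
theorem result (b : ℕ) (hb : 2 ≤ b) : ∃ F : Finset (List R3), ∀ K : Set R3, IsTameKnot K →
    bridgeIndex K = b → (∀ L ∈ F, ¬ AmbientIsotopic K (polygon L)) →
    b + 2 ≤ superbridgeIndex K ∧
    ∀ K₁ K₂ : Set R3, IsConnectedSum K K₁ K₂ → max (superbridgeIndex K₁) (superbridgeIndex K₂) ≤ b + 1 →
      max (superbridgeIndex K₁) (superbridgeIndex K₂) < superbridgeIndex K := by
  obtain ⟨N₀, h⟩ := bounded b hb
  obtain ⟨F, hF⟩ := SB758.finite_types N₀
  refine ⟨F, fun K hK hbK hKF => ?_⟩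
  have key : b + 2 ≤ superbridgeIndex K := by
    by_contra hcon
    obtain ⟨m, P, hm, hmN, hP⟩ := h K hK hbK (by omega)
    obtain ⟨L, hL, hiso⟩ := hF m P hm hmN hP.per hP.simple
    exact hKF L hL (AmbIso.trans hP.iso hiso)
  exact ⟨key, fun K₁ K₂ _ hmax => by omega⟩

end Pool.Agent.Results.MP_28369d_gt.FirstStratum
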